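import Pool.Agent.Y140.AW.Stm

set_option autoImplicit false

/-! # AW-MT: highly transitive groups of degree `q + r` contain the alternating group -/

namespace Pool.Agent.Y688.AW

open Equiv Equiv.Perm MulAction
open scoped Pointwise

/-- Sylow step -/
theorem conj_of_order {G : Type} [Group G] [Finite G] {q : ℕ} (hq : q.Prime)
    (h1 : ¬ q ^ 2 ∣ Nat.card G) (x y : G) (hx : orderOf x = q) (hy : orderOf y = q) :
    ∃ s : G, s * y * s⁻¹ ∈ Subgroup.zpowers x := by
  have : Fact q.Prime := ⟨hq⟩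
  have h2 : q ∣ Nat.card G := hx ▸ orderOf_dvd_natCard x
  have h3 : (Nat.card G).factorization q = 1 := by
    apply le_antisymm
    · by_contra hcon
      push Not at hcon
      exact h1 ((hq.pow_dvd_iff_le_factorization Nat.card_pos.ne').2 hcon)
    · exact (hq.dvd_iff_one_le_factorization Nat.card_pos.ne').1 h2
  let P := Sylow.ofCard (Subgroup.zpowers x) (p := q) (by rw [Nat.card_zpowers, hx, h3, pow_one])
  let Q := Sylow.ofCard (Subgroup.zpowers y) (p := q) (by rw [Nat.card_zpowers, hy, h3, pow_one])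
  obtain ⟨s, hs⟩ := exists_smul_eq G Q P
  refine ⟨s, ?_⟩
  have h4 : MulAut.conj s • (Subgroup.zpowers y) = Subgroup.zpowers x := by
    have := congrArg (fun R : Sylow q G => (R : Subgroup G)) hs
    exact this
  rw [← h4]
  have h5 := Subgroup.smul_mem_pointwise_smul y (MulAut.conj s) (Subgroup.zpowers y)
    (Subgroup.mem_zpowers y)
  simpa using h5

/-- the commutator of two elements normalising the group of `c` commutes with `c` -/
theorem comm_centr {G : Type} [Group G] (c a b : G) (ha : a * c * a⁻¹ ∈ Subgroup.zpowers c)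
    (hb : b * c * b⁻¹ ∈ Subgroup.zpowers c) :
    (a⁻¹ * b⁻¹ * a * b) * c = c * (a⁻¹ * b⁻¹ * a * b) := by
  obtain ⟨i, hi⟩ := Subgroup.mem_zpowers_iff.1 ha
  obtain ⟨j, hj⟩ := Subgroup.mem_zpowers_iff.1 hb
  have h1 : (a * b) * c * (a * b)⁻¹ = c ^ (i * j) := by
    calc (a * b) * c * (a * b)⁻¹ = a * (b * c * b⁻¹) * a⁻¹ := by group
      _ = a * c ^ j * a⁻¹ := by rw [hj]
      _ = (a * c * a⁻¹) ^ j := by rw [conj_zpow]
      _ = c ^ (i * j) := by rw [← hi, zpow_mul]
  have h2 : (b * a) * c * (b * a)⁻¹ = c ^ (i * j) := by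
    calc (b * a) * c * (b * a)⁻¹ = b * (a * c * a⁻¹) * b⁻¹ := by group
      _ = b * c ^ i * b⁻¹ := by rw [hi]
      _ = (b * c * b⁻¹) ^ i := by rw [conj_zpow]
      _ = c ^ (i * j) := by rw [← hj, mul_comm i j, zpow_mul]
  have h3 : (a * b) * c * (a * b)⁻¹ = (b * a) * c * (b * a)⁻¹ := h1.trans h2.symm
  have h4 : a⁻¹ * b⁻¹ * a * b * c = (b * a)⁻¹ * ((a * b) * c * (a * b)⁻¹) * (a * b) := by group
  rw [h4, h3]
  group

theorem powers_comm {n : ℕ} (c x y : Perm (Fin n)) (hc : c.IsCycle) (hx : x * c = c * x)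
    (hy : y * c = c * y) (w : Fin n) (hw : c w ≠ w) : (x⁻¹ * y⁻¹ * x * y) w = w := by
  have hxw : c (x w) ≠ x w := by
    intro h
    have h1 : (x * c) w = (c * x) w := by rw [hx]
    rw [Perm.mul_apply, Perm.mul_apply, h] at h1
    exact hw (x.injective h1)
  have hyw : c (y w) ≠ y w := by
    intro h
    have h1 : (y * c) w = (c * y) w := by rw [hy]
    rw [Perm.mul_apply, Perm.mul_apply, h] at h1
    exact hw (y.injective h1)
  obtain ⟨k, hk⟩ := hc.exists_zpow_eq hw hxw
  obtain ⟨l, hl⟩ := hc.exists_zpow_eq hw hyw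
  have hcx : x * c ^ l = c ^ l * x := ((show Commute x c from hx).zpow_right l).eq
  have hcy : y * c ^ k = c ^ k * y := ((show Commute y c from hy).zpow_right k).eq
  have h1 : x (y w) = y (x w) := by
    rw [← hl, ← hk]
    have h2 : (x * c ^ l) w = (c ^ l * x) w := by rw [hcx]
    have h3 : (y * c ^ k) w = (c ^ k * y) w := by rw [hcy]
    rw [Perm.mul_apply, Perm.mul_apply, ← hk] at h2
    rw [Perm.mul_apply, Perm.mul_apply, ← hl] at h3
    rw [h2, h3, ← Perm.mul_apply, ← Perm.mul_apply, ← zpow_add, ← zpow_add, add_comm]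
  rw [Perm.mul_apply, Perm.mul_apply, Perm.mul_apply, h1, Perm.inv_eq_iff_eq,
    Perm.inv_eq_iff_eq]

theorem key5 : ((((swap 0 1 * swap 0 2 : Perm (Fin 5))⁻¹ * (swap 0 3 * swap 0 4)⁻¹ *
    (swap 0 1 * swap 0 2) * (swap 0 3 * swap 0 4))⁻¹ *
    ((swap 0 1 * swap 0 4 : Perm (Fin 5))⁻¹ * (swap 1 2 * swap 1 3)⁻¹ *
    (swap 0 1 * swap 0 4) * (swap 1 2 * swap 1 3))⁻¹ *
    ((swap 0 1 * swap 0 2 : Perm (Fin 5))⁻¹ * (swap 0 3 * swap 0 4)⁻¹ *
    (swap 0 1 * swap 0 2) * (swap 0 3 * swap 0 4)) *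
    ((swap 0 1 * swap 0 4 : Perm (Fin 5))⁻¹ * (swap 1 2 * swap 1 3)⁻¹ *
    (swap 0 1 * swap 0 4) * (swap 1 2 * swap 1 3)))) = swap 0 1 * swap 0 2 := by
  decide +kernel

theorem not_sq_dvd {n r q : ℕ} (hq : q.Prime) (hn : n = q + r) (hrq : r < q) :
    ¬ q ^ 2 ∣ n.factorial := by
  have hlog : Nat.log q n < 2 := by
    apply Nat.log_lt_of_lt_pow
    · have := hq.pos
      omega
    · have := hq.two_le
      nlinarith
  rw [hq.pow_dvd_factorial_iff hlog]
  have h1 : ∑ i ∈ Finset.Ico 1 2, n / q ^ i = n / q := by simp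
  rw [h1]
  have h2 : n / q < 2 := by
    rw [Nat.div_lt_iff_lt_mul hq.pos]
    omega
  omega

theorem t_mt : Pool.Agent.Y140.AW.St_mt := by
  intro n r q hq hn hr hrq H hH
  have hFq : Fact q.Prime := ⟨hq⟩
  have hq0 := hq.pos
  -- primitivity
  have hprim : IsPreprimitive H (Fin n) := by
    have h1 : IsMultiplyPretransitive H (Fin n) (r + 1) := by
      rw [isMultiplyPretransitive_iff]
      intro x y
      obtain ⟨h, hh, hxy⟩ := hH x y x.injective y.injective
      refine ⟨⟨h, hh⟩, ?_⟩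
      ext i
      exact congrArg Fin.val (hxy i)
    have h2 : IsMultiplyPretransitive H (Fin n) 2 :=
      isMultiplyPretransitive_of_le (n := r + 1) (by omega) (by simp; omega)
    exact isPreprimitive_of_is_two_pretransitive h2
  -- the permutations of five points
  let f : Fin 5 ↪ Fin n := Fin.castLEEmb (by omega)
  let T : Perm (Fin 5) →* Perm (Fin n) := viaEmbeddingHom f
  have hTf : ∀ (ρ : Perm (Fin 5)) (i : Fin 5), T ρ (f i) = f (ρ i) := fun ρ i =>
    viaEmbedding_apply ρ f i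
  have hT0 : ∀ (ρ : Perm (Fin 5)) (x : Fin n), 5 ≤ x.val → T ρ x = x := by
    intro ρ x hx
    refine viaEmbedding_apply_of_notMem ρ f x ?_
    rintro ⟨i, rfl⟩
    have : (f i).val = i.val := rfl
    omega
  have hT1 : ∀ (ρ : Perm (Fin 5)) (x : Fin n), x.val < r → (T ρ x).val < r := by
    intro ρ x hx
    by_cases h5 : 5 ≤ x.val
    · rw [hT0 ρ x h5]
      exact hx
    · have h1 : x = f ⟨x.val, by omega⟩ := rfl
      rw [h1, hTf]
      have : (f (ρ ⟨x.val, by omega⟩)).val = (ρ ⟨x.val, by omega⟩).val := rfl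
      omega
  have hT2 : ∀ (ρ : Perm (Fin 5)) (x : Fin n), r ≤ x.val → T ρ x = x := fun ρ x hx =>
    hT0 ρ x (by omega)
  -- the pointwise stabiliser
  let S : Subgroup (Perm (Fin n)) :=
    { carrier := {h | h ∈ H ∧ ∀ x : Fin n, x.val < r → h x = x}
      mul_mem' := by
        rintro a b ⟨ha, ha'⟩ ⟨hb, hb'⟩
        refine ⟨H.mul_mem ha hb, fun x hx => ?_⟩
        rw [Perm.mul_apply, hb' x hx, ha' x hx]
      one_mem' := ⟨H.one_mem, fun x _ => rfl⟩
      inv_mem' := by
        rintro a ⟨ha, ha'⟩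
        refine ⟨H.inv_mem ha, fun x hx => ?_⟩
        rw [Perm.inv_eq_iff_eq]
        exact (ha' x hx).symm }
  have hSm : ∀ h : Perm (Fin n), h ∈ S ↔ h ∈ H ∧ ∀ x : Fin n, x.val < r → h x = x :=
    fun h => Iff.rfl
  let x0 : Fin n := ⟨r, by omega⟩
  have horb : orbit S x0 = {x : Fin n | r ≤ x.val} := by
    ext x
    constructor
    · rintro ⟨⟨h, hh⟩, rfl⟩
      change r ≤ (h x0).val
      by_contra hcon
      push Not at hcon
      have h1 := ((hSm h).1 hh).2 (h x0) hcon
      have h2 := h.injective h1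
      rw [h2] at hcon
      exact lt_irrefl _ hcon
    · intro hx
      change r ≤ x.val at hx
      obtain ⟨h, hh, hab⟩ := hH (fun i => ⟨i.val, by omega⟩)
        (fun i => if h : i.val < r then ⟨i.val, by omega⟩ else x)
        (fun i j hij => by
          simp only [Fin.mk.injEq] at hij
          exact Fin.ext hij)
        (fun i j hij => by
          have hi := i.isLt
          have hj := j.isLt
          dsimp only at hij
          split_ifs at hij with h1 h2 h2
          · simp only [Fin.mk.injEq] at hij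
            exact Fin.ext hij
          · have := congrArg Fin.val hij
            dsimp only at this
            omega
          · have := congrArg Fin.val hij
            dsimp only at this
            omega
          · exact Fin.ext (by omega))
      refine ⟨⟨h, ?_⟩, ?_⟩
      · rw [hSm]
        refine ⟨hh, fun y hy => ?_⟩
        have := hab ⟨y.val, by omega⟩
        rw [dif_pos hy] at this
        exact this
      · have := hab ⟨r, by omega⟩
        rw [dif_neg (lt_irrefl r)] at this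
        exact this
  have hcardΩ : ({x : Fin n | r ≤ x.val} : Set (Fin n)).ncard = q := by
    have h1 : ({x : Fin n | r ≤ x.val} : Set (Fin n)) = ↑(Finset.Ici x0) := by
      ext x
      rw [Finset.coe_Ici]
      rfl
    rw [h1, Set.ncard_coe_finset, Fin.card_Ici]
    change n - r = q
    omega
  have hqS : q ∣ Nat.card S := by
    have h1 := index_stabilizer S x0
    rw [horb, hcardΩ] at h1
    rw [← h1]
    exact Subgroup.index_dvd_card _
  have hq2 : ¬ q ^ 2 ∣ Nat.card S := by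
    intro h
    apply not_sq_dvd hq hn hrq
    have h1 : Nat.card S ∣ Nat.card (Perm (Fin n)) := Subgroup.card_subgroup_dvd_card S
    rw [Nat.card_perm, Nat.card_fin] at h1
    exact h.trans h1
  obtain ⟨c, hc⟩ := exists_prime_orderOf_dvd_card' q hqS
  have hcS := c.2
  have hc' : orderOf (c : Perm (Fin n)) = q := by rw [Subgroup.orderOf_coe, hc]
  have hcyc : (c : Perm (Fin n)).IsCycle := by
    apply isCycle_of_prime_order'
    · rw [hc']
      exact hq
    · rw [hc', Fintype.card_fin]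
      omega
  have hsupp : ∀ x : Fin n, r ≤ x.val → (c : Perm (Fin n)) x ≠ x := by
    have h1 : (c : Perm (Fin n)).support ⊆ Finset.Ici x0 := by
      intro x hx
      rw [Finset.mem_Ici]
      by_contra hcon
      have h2 : x.val < r := not_le.1 hcon
      exact (Perm.mem_support.1 hx) (((hSm _).1 hcS).2 x h2)
    have h2 : (c : Perm (Fin n)).support = Finset.Ici x0 := by
      apply Finset.eq_of_subset_of_card_le h1
      rw [← hcyc.orderOf, hc', Fin.card_Ici]
      change n - r ≤ q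
      omega
    intro x hx
    rw [← Perm.mem_support, h2, Finset.mem_Ici]
    exact hx
  -- elements of the normaliser with given action
  have hN : ∀ ρ : Perm (Fin 5), ∃ h ∈ H, (∀ x : Fin n, x.val < r → h x = T ρ x) ∧
      h * c * h⁻¹ ∈ Subgroup.zpowers (c : Perm (Fin n)) := by
    intro ρ
    obtain ⟨h0, hh0, hab⟩ := hH (fun i => ⟨i.val, by omega⟩)
      (fun i => T ρ ⟨i.val, by omega⟩)
      (fun i j hij => by
        simp only [Fin.mk.injEq] at hij
        exact Fin.ext hij)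
      (fun i j hij => by
        have h1 := (T ρ).injective hij
        simp only [Fin.mk.injEq] at h1
        exact Fin.ext h1)
    have h1 : ∀ x : Fin n, x.val < r → h0 x = T ρ x := fun x hx => hab ⟨x.val, by omega⟩
    have h2 : h0 * c * h0⁻¹ ∈ S := by
      rw [hSm]
      refine ⟨H.mul_mem (H.mul_mem hh0 ((hSm _).1 hcS).1) (H.inv_mem hh0), fun x hx => ?_⟩
      have h3 : (T ρ⁻¹ x).val < r := hT1 ρ⁻¹ x hx
      have h4 : h0 (T ρ⁻¹ x) = x := by
        rw [h1 _ h3, ← Perm.mul_apply, ← map_mul, mul_inv_cancel, map_one, Perm.one_apply]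
      have h5 : h0⁻¹ x = T ρ⁻¹ x := by
        rw [Perm.inv_eq_iff_eq]
        exact h4.symm
      rw [Perm.mul_apply, Perm.mul_apply, h5, ((hSm _).1 hcS).2 _ h3, h4]
    have h3 : orderOf (⟨h0 * c * h0⁻¹, h2⟩ : S) = q := by
      rw [← Subgroup.orderOf_coe]
      change orderOf (h0 * (c : Perm (Fin n)) * h0⁻¹) = q
      rw [← hc']
      exact (SemiconjBy.conj_mk h0 (c : Perm (Fin n))).orderOf_eq.symm
    obtain ⟨s, hs⟩ := conj_of_order hq hq2 c ⟨h0 * c * h0⁻¹, h2⟩ hc h3
    refine ⟨s * h0, H.mul_mem ((hSm _).1 s.2).1 hh0, fun x hx => ?_, ?_⟩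
    · rw [Perm.mul_apply, h1 x hx]
      exact ((hSm _).1 s.2).2 _ (hT1 ρ x hx)
    · obtain ⟨i, hi⟩ := Subgroup.mem_zpowers_iff.1 hs
      refine Subgroup.mem_zpowers_iff.2 ⟨i, ?_⟩
      have h4 := congrArg (fun z : S => (z : Perm (Fin n))) hi
      simp only [Subgroup.coe_zpow, Subgroup.coe_mul, Subgroup.coe_inv] at h4
      rw [h4]
      group
  -- products and inverses
  have hmul : ∀ (a b : Perm (Fin n)) (α β : Perm (Fin 5)),
      (∀ x : Fin n, x.val < r → a x = T α x) → (∀ x : Fin n, x.val < r → b x = T β x) →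
      ∀ x : Fin n, x.val < r → (a * b) x = T (α * β) x := by
    intro a b α β ha hb x hx
    rw [Perm.mul_apply, hb x hx, ha _ (hT1 β x hx), map_mul, Perm.mul_apply]
  have hinv : ∀ (a : Perm (Fin n)) (α : Perm (Fin 5)),
      (∀ x : Fin n, x.val < r → a x = T α x) →
      ∀ x : Fin n, x.val < r → a⁻¹ x = T α⁻¹ x := by
    intro a α ha x hx
    rw [Perm.inv_eq_iff_eq, ha _ (hT1 α⁻¹ x hx), ← Perm.mul_apply, ← map_mul, mul_inv_cancel,
      map_one, Perm.one_apply]
  have hcomm : ∀ (a b : Perm (Fin n)) (α β : Perm (Fin 5)),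
      (∀ x : Fin n, x.val < r → a x = T α x) → (∀ x : Fin n, x.val < r → b x = T β x) →
      ∀ x : Fin n, x.val < r → (a⁻¹ * b⁻¹ * a * b) x = T (α⁻¹ * β⁻¹ * α * β) x := by
    intro a b α β ha hb
    exact hmul _ _ _ _ (hmul _ _ _ _ (hmul _ _ _ _ (hinv a α ha) (hinv b β hb)) ha) hb
  obtain ⟨a, haH, ha, ha'⟩ := hN (swap 0 1 * swap 0 2)
  obtain ⟨b, hbH, hb, hb'⟩ := hN (swap 0 3 * swap 0 4)
  obtain ⟨a2, haH2, ha2, ha2'⟩ := hN (swap 0 1 * swap 0 4)
  obtain ⟨b2, hbH2, hb2, hb2'⟩ := hN (swap 1 2 * swap 1 3)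
  have hx := hcomm a b _ _ ha hb
  have hy := hcomm a2 b2 _ _ ha2 hb2
  have hz := hcomm _ _ _ _ hx hy
  rw [key5] at hz
  have hzT : (a⁻¹ * b⁻¹ * a * b)⁻¹ * (a2⁻¹ * b2⁻¹ * a2 * b2)⁻¹ * (a⁻¹ * b⁻¹ * a * b) *
      (a2⁻¹ * b2⁻¹ * a2 * b2) = T (swap 0 1 * swap 0 2) := by
    apply Equiv.ext
    intro x
    by_cases hxr : x.val < r
    · exact hz x hxr
    · push Not at hxr
      rw [hT2 _ x hxr]
      exact powers_comm (c : Perm (Fin n)) _ _ hcyc (comm_centr _ _ _ ha' hb')
        (comm_centr _ _ _ ha2' hb2') x (hsupp x hxr)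
  have h3 : IsThreeCycle (T (swap 0 1 * swap 0 2)) := by
    have h4 : IsThreeCycle (swap 0 1 * swap 0 2 : Perm (Fin 5)) :=
      isThreeCycle_swap_mul_swap_same (by decide) (by decide) (by decide)
    unfold IsThreeCycle at h4 ⊢
    rw [← h4]
    change (viaEmbedding (swap 0 1 * swap 0 2) f).cycleType = _
    unfold viaEmbedding
    exact @cycleType_extendDomain (Fin 5) _ _ (Fin n) _ _ (fun x => x ∈ Set.range f)
      (fun x => Classical.propDecidable _) (ofInjective f.1 f.2) (swap 0 1 * swap 0 2)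
  refine alternatingGroup_le_of_isPreprimitive_of_isThreeCycle_mem hprim h3 ?_
  rw [← hzT]
  have m1 : a⁻¹ * b⁻¹ * a * b ∈ H :=
    H.mul_mem (H.mul_mem (H.mul_mem (H.inv_mem haH) (H.inv_mem hbH)) haH) hbH
  have m2 : a2⁻¹ * b2⁻¹ * a2 * b2 ∈ H :=
    H.mul_mem (H.mul_mem (H.mul_mem (H.inv_mem haH2) (H.inv_mem hbH2)) haH2) hbH2
  exact H.mul_mem (H.mul_mem (H.mul_mem (H.inv_mem m1) (H.inv_mem m2)) m1) m2

end Pool.Agent.Y688.AW
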